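import Pool.Agent.helper91.RDR.Main1

/-!
# C*-simple groups with a unitary representation with Property RD have Property RD

If the finitely generated group `Γ` admits a unitary representation with Property RD on a nonzero
Hilbert space, then every C*-simple subgroup `H` of `Γ` has Property RD for the restriction of the
word length of `Γ`; in particular, `Γ` itself has Property RD if it is C*-simple.
-/

namespace Pool.Agent.Results.MP_663661_an.CStarSimpleSubgroups

open Pool.Agent.helper91.RDR

theorem result {Γ : Type*} [Group Γ] (S : Finset Γ)
    (hS : Subgroup.closure (S : Set Γ) = ⊤) {V : Type*} [NormedAddCommGroup V]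
    [InnerProductSpace ℂ V] [CompleteSpace V] [Nontrivial V] (π : Γ →* unitary (V →L[ℂ] V))
    (hπ : RepRD (wordLength S) π) :
    (CStarSimple Γ → GroupRD (wordLength S)) ∧
      ∀ H : Subgroup Γ, CStarSimple H → GroupRD fun h : H => wordLength S (h : Γ) :=
  ⟨fun h => groupRD_of_simple (wordLength_isLength S hS) hπ h, fun H h =>
    groupRD_of_simple ((wordLength_isLength S hS).restrict H) (hπ.restrict H) h⟩

end Pool.Agent.Results.MP_663661_an.CStarSimpleSubgroups
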