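import Pool.Agent.H79RDL.Main2

/-!
# Property RD when the amenable radical is seen by linear representations

Let the finitely generated group `Γ` have a unitary representation with Property RD on a nonzero
Hilbert space, let `φ i` be finitely many homomorphisms from `Γ` to general linear groups over
arbitrary fields, and let `H` be a subgroup of `Γ`.  Suppose that for every amenable normal subgroup
`K` of `H` either no nontrivial element of `K` is killed by all `φ i`, or there is a finite subset `T`
of `K` such that the elements of `K` commuting with `T` commute with each other and no nontrivial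
one among them is killed by all `φ i`.  Then `H` has Property RD for the length of `Γ`, and `Γ` has
Property RD if `H` has polynomial index (for instance `H = Γ`).  In particular every finitely
generated linear group with a unitary representation with Property RD has Property RD.
-/

namespace Pool.Agent.Results.MP_663661_an.LinearRadical

open Pool.Agent.helper91.RDR Pool.Agent.helper72.RDC

theorem result {Γ : Type*} [Group Γ] (S : Finset Γ)
    (hS : Subgroup.closure (S : Set Γ) = ⊤) {V : Type*} [NormedAddCommGroup V]
    [InnerProductSpace ℂ V] [CompleteSpace V] [Nontrivial V] (π : Γ →* unitary (V →L[ℂ] V))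
    (hπ : RepRD (wordLength S) π) {ι : Type*} [Finite ι] (F : ι → Type*) [∀ i, Field (F i)]
    (d : ι → ℕ) (φ : ∀ i, Γ →* Matrix.GeneralLinearGroup (Fin (d i)) (F i)) (H : Subgroup Γ)
    (hH : ∀ K : Subgroup H, K.Normal → IsFolner K →
      (∀ x ∈ K, (∀ i, φ i (x : Γ) = 1) → x = 1) ∨
      ∃ T : Finset H, (∀ t ∈ T, t ∈ K) ∧ ∀ x ∈ K, (∀ t ∈ T, x * t = t * x) →
        ((∀ i, φ i (x : Γ) = 1) → x = 1) ∧
          ∀ y ∈ K, (∀ t ∈ T, y * t = t * y) → x * y = y * x) :
    GroupRD (fun h : H => wordLength S (h : Γ)) ∧
      (PolyIndex (wordLength S) H → GroupRD (wordLength S)) := by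
  have h1 : GroupRD (fun h : H => wordLength S (h : Γ)) :=
    Pool.Agent.H79RDL.groupRD_of_linear2 S hS π hπ φ H hH
  exact ⟨h1, fun hI => groupRD_of_polyIndex (wordLength_isLength S hS) H h1 hI⟩

end Pool.Agent.Results.MP_663661_an.LinearRadical
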