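import Pool.Agent.helper91.RDR.Main2

/-!
# Virtually solvable subgroups of a group with a representation with Property RD

Let the finitely generated group `Γ` admit a unitary representation with Property RD on a nonzero
Hilbert space.  For every `ℓ` there is a constant `c` such that, for all subgroups `B ≤ A` of `Γ`
with `B` solvable of derived length at most `ℓ` and of finite index in `A`, every ball of radius
`R` of `Γ` contains at most `[A : B] exp (c (log (R + 2)) ^ ℓ)` elements of `A`.  In particular the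
growth of `A` in `Γ` is not exponential.
-/

namespace Pool.Agent.Results.MP_663661_an.SolvableSubgroups

open Pool.Agent.helper91.RDR

theorem result {Γ : Type*} [Group Γ] (S : Finset Γ)
    (hS : Subgroup.closure (S : Set Γ) = ⊤) {V : Type*} [NormedAddCommGroup V]
    [InnerProductSpace ℂ V] [CompleteSpace V] [Nontrivial V] (π : Γ →* unitary (V →L[ℂ] V))
    (hπ : RepRD (wordLength S) π) (ℓ : ℕ) :
    ∃ c : ℝ, 0 ≤ c ∧ ∀ (A : Subgroup Γ) (B : Subgroup A), B.FiniteIndex →
      derivedSeries B ℓ = ⊥ →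
        (∀ R : ℕ, {g : Γ | g ∈ A ∧ wordLength S g ≤ R}.Finite ∧
          (({g : Γ | g ∈ A ∧ wordLength S g ≤ R}.ncard : ℕ) : ℝ) ≤
            B.index * Real.exp (c * Real.log ((R : ℝ) + 2) ^ ℓ)) ∧
        ¬ ∃ a : ℝ, 1 < a ∧ ∀ R : ℕ,
          a ^ R ≤ (({g : Γ | g ∈ A ∧ wordLength S g ≤ R}.ncard : ℕ) : ℝ) := by
  obtain ⟨c, hc0, hc⟩ := growth_of_rep (wordLength_isLength S hS) hπ ℓ
  exact ⟨c, hc0, fun A B hi hB => ⟨hc A B hi hB, fun ⟨a, ha, h⟩ =>
    no_exponential ha h fun R => (hc A B hi hB R).2⟩⟩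

end Pool.Agent.Results.MP_663661_an.SolvableSubgroups
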