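import Pool.Agent.helper72.RDC.Fol

/-!
# Groups without small normal subgroups and a representation with Property RD

Let the finitely generated group `Γ` have a unitary representation with Property RD on a nonzero
Hilbert space.  If a subgroup `H` of `Γ` has no nontrivial small normal subgroup (in particular if
it has no nontrivial amenable normal subgroup), then `H` has Property RD for the length of `Γ`; if
moreover `H` has polynomial index in `Γ` (for instance `H = Γ`), then `Γ` has Property RD.
-/

namespace Pool.Agent.Results.MP_663661_an.TrivialAmenableRadical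

open Pool.Agent.helper91.RDR Pool.Agent.helper72.RDC

theorem result {Γ : Type*} [Group Γ] (S : Finset Γ)
    (hS : Subgroup.closure (S : Set Γ) = ⊤) {V : Type*} [NormedAddCommGroup V]
    [InnerProductSpace ℂ V] [CompleteSpace V] [Nontrivial V] (π : Γ →* unitary (V →L[ℂ] V))
    (hπ : RepRD (wordLength S) π) (H : Subgroup Γ) (A₀ : Set ℕ) (hA₀ : A₀.Infinite)
    (hH : ∀ A ⊆ A₀, A.Infinite → ∀ N : Subgroup H, N.Normal →
      IsSmall (fun h : H => wordLength S (h : Γ)) A N → N = ⊥) :
    GroupRD (fun h : H => wordLength S (h : Γ)) ∧
      (PolyIndex (wordLength S) H → GroupRD (wordLength S)) := by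
  have hL := wordLength_isLength S hS
  have h1 : GroupRD (fun h : H => wordLength S (h : Γ)) :=
    groupRD_of_small (hL.restrict H) (hπ.restrict H) hA₀ hH
  exact ⟨h1, fun hI => groupRD_of_polyIndex hL H h1 hI⟩

end Pool.Agent.Results.MP_663661_an.TrivialAmenableRadical
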